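import Mathlib
import Pool.Agent.helper46.AX.All1

/-!
# Project UM (MP_2e0e07_nt): the uniform dichotomy

Page: `/team-store/H8_2e0e07_A_helper82.md`. Rows are the definitions `XXX_stmt : Prop`; prove
`theorem XXX (h1 : AAA_stmt) ... : XXX_stmt` in `Pool/Agent/<you>/UM/XXX.lean`,
`import Pool.Agent.helper82.UM.Spec`, namespace `Pool.Agent.UM`; auxiliary lemmas are named
`XXX_...`. A complete proof of every row is in its docstring. All rows are independent.
-/

set_option autoImplicit false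

namespace Pool.Agent.UM

open Matrix Polynomial Pool.Agent.GO Pool.Agent.AR Pool.Agent.RG Pool.Agent.HZ Pool.Agent.DS
  Pool.Agent.AX MeasureTheory NumberField

/-! ## Definitions used in the final statement -/

/-- The quotient `α / β` of the roots of `X² - t X + δ` is a quotient of two roots of the product of
the `P i`. -/
def Ratio {F : Type*} [Field F] {r : ℕ} (P : Fin r → F[X]) (t δ : F) : Prop :=
  ∃ α β l l' : F, α + β = t ∧ α * β = δ ∧ (∏ i, P i).IsRoot l ∧ (∏ i, P i).IsRoot l' ∧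
    α * l' = β * l

/-- The quotient of the roots of `Q` is a quotient of two roots of the product of the `P i`, in the
complex numbers and for the embedding `φ` of `E`. -/
def RatioAt {E : Type*} [Field E] {r : ℕ} (P : Fin r → ℤ[X]) (Q : (𝓞 E)[X]) (φ : E →+* ℂ) :
    Prop :=
  Ratio (fun i => (P i).map (Int.castRingHom ℂ)) (-(φ (Q.coeff 1 : 𝓞 E))) (φ (Q.coeff 0 : 𝓞 E))

/-- The reduction of the `V p i` modulo `p`. -/
noncomputable def Wm {Γ : Type*} [Group Γ] {r : ℕ} {n : Fin r → ℕ} (p : ℕ) [Fact p.Prime]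
    (V : (q : ℕ) → [Fact q.Prime] → (i : Fin r) → Γ →* Matrix (Fin (n i)) (Fin (n i)) ℤ_[q])
    (i : Fin r) : Γ →* Matrix (Fin (n i)) (Fin (n i)) (ZMod p) :=
  mapHom (PadicInt.toZMod (p := p)) (V p i)

/-- `S` is irreducible and `p` divides the order of its image. -/
def Big {Γ κ : Type*} [Group Γ] [Field κ] (p : ℕ) (S : Γ →* Matrix (Fin 2) (Fin 2) κ) : Prop :=
  Irred (fun g => S g) ∧ ∃ g, orderOf (S g) = p

/-! ## Auxiliary definitions -/

/-- The value of the universal polynomial `Φ` at the coefficients of the `P i` and at `t`. -/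
noncomputable def ev {F : Type*} [CommRing F] {r : ℕ} (Φ : (MvPolynomial (Fin r × ℕ) ℤ)[X])
    (P : Fin r → F[X]) (t : F) : F :=
  (Φ.map (MvPolynomial.eval₂Hom (Int.castRingHom F) fun k : Fin r × ℕ =>
    (P k.1).coeff k.2)).eval t

/-- `Φ` over the integers of `E`. -/
noncomputable def PhiE (E : Type*) [Field E] {r : ℕ} (Φ : (MvPolynomial (Fin r × ℕ) ℤ)[X]) :
    (MvPolynomial (Fin r × ℕ) (𝓞 E))[X] :=
  Φ.map (MvPolynomial.map (Int.castRingHom (𝓞 E)))

/-- The value of `Φ` at a place. -/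
noncomputable def val {E : Type*} [Field E] {r : ℕ} (Φ : (MvPolynomial (Fin r × ℕ) ℤ)[X])
    (P : Fin r → ℤ[X]) (Q : (𝓞 E)[X]) : 𝓞 E :=
  relVal (PhiE E Φ) (fun i => (P i).map (Int.castRingHom (𝓞 E))) Q

/-- `Φ` is the universal polynomial of the relation `Ratio`. -/
def IsPhi {r : ℕ} (n : Fin r → ℕ) (i₀ : Fin r) (Φ : (MvPolynomial (Fin r × ℕ) ℤ)[X]) : Prop :=
  ∀ {F : Type} [Field F] [IsAlgClosed F] (P : Fin r → F[X]) (δ : F),
    (∀ i, (P i).Monic ∧ (P i).natDegree = n i) → P i₀ = X - C δ →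
    (∀ t, ev Φ P t = 0 ↔ Ratio P t δ) ∧
    ((∏ i, P i).coeff 0 ≠ 0 → Φ.map (MvPolynomial.eval₂Hom (Int.castRingHom F)
      fun k : Fin r × ℕ => (P k.1).coeff k.2) ≠ 0)

/-! ## Rows -/

/-- Row PHI (MEDIUM; symmetric functions). The universal polynomial.
Proof. `m = ∑ i, n i`, `R = MvPolynomial (Fin r × ℕ) ℤ`, `δ = -X (i₀, 0) ∈ R`. Over `R` let
`G = ∏ (i, j : Fin m × Fin m), (C (x i * x j) * X ^ 2 - C (C δ * (x i + x j) ^ 2))` in
`(MvPolynomial (Fin m) R)[X]`, `x i = MvPolynomial.X i`. Its coefficients are symmetric (as in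
`relPoly_perm` / `SYM`, Pool/Agent/helper46/DS/Sym.lean). `sym_transfer m G` gives
`Ψ : (MvPolynomial ℕ R)[X]`; put `Φ = Ψ.map (MvPolynomial.eval₂Hom (RingHom.id R) (prodCoeff ℤ n))`
(`prodCoeff`, `prodCoeff_eval`: Pool/Agent/helper46/DS/Conv.lean; see the proof of `conv` there).
Let `F`, `P`, `δ'` be given, `ι : R →+* F` the evaluation `eval₂Hom (Int.castRingHom F) (P k.1).coeff k.2`;
`ι δ = δ'` because `(P i₀).coeff 0 = -δ'`. `∏ i, P i = ∏ j : Fin m, (X - C (l j))` (`exists_roots`, Conv.lean).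
So `Φ.map ι = Ψ.map (eval₂Hom ι fun k => (∏ j, (X - C (l j))).coeff k) = G.map (eval₂Hom ι l) =
∏ (i, j), (C (l i * l j) * X ^ 2 - C (δ' * (l i + l j) ^ 2))`. Its value at `t` is zero iff for some `i`, `j`
`l i l j t ^ 2 = δ' (l i + l j) ^ 2`. With the roots `α`, `β` of `X ^ 2 - t X + δ'` this is
`(α l j - β l i) (α l i - β l j) = 0`, i.e. `Ratio` (the roots of `∏ P i` are the `l j`). If
`(∏ i, P i).coeff 0 = ± ∏ l j ≠ 0` then all factors are nonzero polynomials (coefficient of `X ^ 2`). -/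
def PHI_stmt : Prop := ∀ (r : ℕ) (n : Fin r → ℕ) (i₀ : Fin r),
  ∃ Φ : (MvPolynomial (Fin r × ℕ) ℤ)[X], IsPhi n i₀ Φ

/-- Row UHT (MEDIUM; the uniform horizontal theorem, by the landed rows ULT UPF KCD INJ SPN LCJ ADS of
project HZ; copy the first half of `FWD`, Pool/Agent/helper41/HZ/FWD.lean).
Proof. Suppose that for every `k : ℕ` there is a counterexample for `c = k`: bundle the data in a
`structure UHT_cex (r) (n) (k : ℕ) : Type 1` (fields `p κ [Field κ] .. G W S g`), and choose one for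
every `k`. `G' = ∀ k, G k`, `W' k i = (W k i).comp (Pi.evalMonoidHom G k)`, `S' k` likewise: the kernels
have finite index, `Irred`, an element of order `p k` exist as before (the projection is surjective),
`adDegree (W' k) (S' k) = adDegree (W k) (S k) =: D k` (`Subgroup.relIndex_comap` for the surjective
projection: `kerV (W' k)` and `adKer (S' k)` are the comaps of `kerV (W k)`, `adKer (S k)`), `D k ≠ 0`
(finite index). `p k > k * D k ≥ k`, so `{k | p k ≤ m}` is finite and `{k | c * D k < p k}` contains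
`{k | c ≤ k}`. `ULT`, `UPF` give `𝒰`, the field `K` of characteristic zero, `π`. With
`B k i = FWD_bc (p k) (κ k) (W' k i)`, `W'' k = dirSum (B k)` exactly as in `FWD` (with `Γ := G'`) one gets
`AdSubquotient ⊤ (star π S') (tens (star π W'') 1 1)` for the group `ℕ → G'`. `ad_roots` at the element
`x = fun k => (fun k' => g k')` gives `α β γ ε` in `K` with `α + β = (star π S' x).trace`, `α β = det`,
`γ 0`, `ε 0` roots of the charpoly of `star π W'' x`, `α ε 0 = β γ 0` (`β ≠ 0`, `Fin.prod_univ_one`..).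
Lift `α β γ ε` to sequences (`IsUP.surj`); the equations hold for `𝒰`-almost all `k` (`IsUP.zero`):
`α_k + β_k = (S k (g k)).trace` etc.; for the roots: `π` of the value of `(W'' k (g_k)).charpoly` at `γ_k` is
the value of the charpoly of `star π W'' x` at `γ` (`FWD_char`, or: `(star π W'' x).charpoly` is the image
under `π` of the charpoly of `mt W'' x`, and the component `k` of the latter is
`(W'' k (x k)).charpoly`). `(W'' k y).charpoly = ∏ i, (B k i y).charpoly` (`charpoly_dirSum'`,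
Pool/Agent/helper21/FF/FF.lean). So `Ratio` holds for almost all `k`, and there is such a `k`
(`Filter.Eventually.exists`, `𝒰` is `NeBot`), a contradiction. Use `ULT UPF KCD inj_all (SPN NIL LCJ) LCJ ADS`
from Pool/Agent/helper91/HZ/Main.lean. -/
def UHT_stmt : Prop := ∀ (r : ℕ) (n : Fin r → ℕ), ∃ c : ℕ, ∀ (p : ℕ) (κ : Type) [Field κ]
  [IsAlgClosed κ] [CharP κ p] (G : Type) [Group G]
  (W : (i : Fin r) → G →* Matrix (Fin (n i)) (Fin (n i)) (ZMod p))
  (S : G →* Matrix (Fin 2) (Fin 2) κ), p.Prime → (∀ i, (W i).ker.FiniteIndex) →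
  S.ker.FiniteIndex → Big p S → c * adDegree W S < p →
  ∀ g, Ratio (fun i => ((W i g).map (ZMod.castHom (dvd_refl p) κ)).charpoly) (S g).trace (S g).det

/-- Row VAL (SHORT; evaluation of the universal polynomial and ring homomorphisms).
Proof. (1) `Polynomial.hom_eval₂` / `Polynomial.map_map`, `MvPolynomial.ringHom_ext`. (2) unfold `val`,
`relVal`, `PhiE`; the same, with `MvPolynomial.eval₂Hom` composed with `MvPolynomial.map`
(`Polynomial.coeff_map`, ring homomorphisms from `ℤ` agree: `RingHom.ext_int`). -/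
def VAL_stmt : Prop :=
  (∀ {r : ℕ} (Φ : (MvPolynomial (Fin r × ℕ) ℤ)[X]) {F F' : Type} [CommRing F] [CommRing F']
    (f : F →+* F') (P : Fin r → F[X]) (t : F), f (ev Φ P t) = ev Φ (fun i => (P i).map f) (f t)) ∧
  ∀ {r : ℕ} (Φ : (MvPolynomial (Fin r × ℕ) ℤ)[X]) {E : Type} [Field E] {F : Type} [CommRing F]
    (f : 𝓞 E →+* F) (P : Fin r → ℤ[X]) (Q : (𝓞 E)[X]),
    f (val Φ P Q) = ev Φ (fun i => (P i).map (Int.castRingHom F)) (-(f (Q.coeff 1)))

/-- Row NRM (SHORT-MEDIUM; a value divisible by a place above a large prime is zero).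
Proof. `D` = a weight of `Φ` (`exists_weight`, Cert.lean, over `ℤ`), it is a weight of `PhiE E Φ` (the
support of a mapped polynomial is contained in the support; `Polynomial.coeff_map`,
`MvPolynomial.support_map_subset`). `H = ∑ k ∈ range (Φ.natDegree + 1), ∑ m ∈ (Φ.coeff k).support,
((Φ.coeff k).coeff m).natAbs`: `HasHeight (PhiE E Φ) H` (`‖φ (c : 𝓞 E)‖ = |c|` for integers `c`; smaller
supports and degree; all terms are nonnegative). Let `I = RingHom.ker f`. If `φ := f (p : 𝓞 E) = 0`, so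
`(p : 𝓞 E) ∈ I`, `I ≠ ⊤`; `p ≤ Ideal.absNorm I`: `absNorm I` divides `absNorm (span {p}) = p ^ [E:ℚ]`
(`Ideal.absNorm_dvd_absNorm_of_le`, `Ideal.absNorm_span_natCast`) and is not `1`
(`Ideal.absNorm_eq_one_iff`), so it is `p ^ k` with `k ≥ 1` (`Nat.dvd_prime_pow`).
`relVal_eq_zero` (Pool/Agent/helper46/DS/NormB.lean) with `Or.inl`:
`X ^ finrank ≤ X ^ d < p ≤ absNorm I` for `X = H * ((∑ n i + 2) * B) ^ D` if `X ≥ 1`; if `X = 0` then
`X ^ finrank = 0 < p` (`finrank > 0`). -/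
def NRM_stmt : Prop := ∀ {r : ℕ} (n : Fin r → ℕ) (Φ : (MvPolynomial (Fin r × ℕ) ℤ)[X]),
  ∃ D H : ℕ, HasWeight n Φ D ∧ ∀ (d : ℕ) {E : Type} [Field E] [NumberField E],
    Module.finrank ℚ E ≤ d → ∀ (P : Fin r → ℤ[X]) (Q : (𝓞 E)[X]) (B : ℕ), 1 ≤ B →
    (∀ i, IsBounded (n i) B ((P i).map (Int.castRingHom (𝓞 E)))) → IsBounded 2 B Q →
    ∀ (p : ℕ) (κ : Type) [Field κ] [CharP κ p], p.Prime → ∀ f : 𝓞 E →+* κ,
    (H * (((∑ i, n i) + 2) * B) ^ D) ^ d < p → f (val Φ P Q) = 0 → val Φ P Q = 0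

/-- The homomorphism `ℤ_[p] → F` for an extension `F` of `ℚ_[p]`. -/
noncomputable def toF (p : ℕ) [Fact p.Prime] (F : Type) [Field F] [Algebra ℚ_[p] F] :
    ℤ_[p] →+* F := (algebraMap ℚ_[p] F).comp PadicInt.Coe.ringHom

/-- Row FAL (SHORT-MEDIUM; the Faltings step).
Proof. As in `eq_of_eqOn` (Pool/Agent/helper46/DS/Falt.lean): `criterion_poly_mod`
(Pool/Agent/helper46/DS/Poly.lean) with `N = kerV V ⊓ ρ.ker` (normal), `W = dsum (dirSum V') ρ` for
`V' i = mapHom (toF p F) (V i)` (see Signed.lean for `dsum`, continuity as in `eq_of_eqOn`;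
`Fintype.card (Idx n) = ∑ n i + 2`), the polynomial `G = relG n (Int.castRingHom F) Φ`, of total degree
at most `D` (`relG_degree`), whose value at `W g` is `ev Φ (charpolys) (ρ g).trace` (`relG_eval`,
Pool/Agent/helper46/DS/Rel.lean); `e = d`. The case where `F` has degree `≤ d`: `he`. -/
def FAL_stmt : Prop := ∀ {r : ℕ} (n : Fin r → ℕ) (Φ : (MvPolynomial (Fin r × ℕ) ℤ)[X]) (D : ℕ),
  HasWeight n Φ D → ∀ (d p : ℕ) [Fact p.Prime] {Γ : Type} [Group Γ] [TopologicalSpace Γ]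
  [IsTopologicalGroup Γ] [CompactSpace Γ]
  (V : (i : Fin r) → Γ →* Matrix (Fin (n i)) (Fin (n i)) ℤ_[p]), (∀ i, Continuous (V i)) →
  ∀ (F : Type) [Field F] [Algebra ℚ_[p] F] [FiniteDimensional ℚ_[p] F] [TopologicalSpace F]
  [IsTopologicalRing F] [ContinuousSMul ℚ_[p] F] [T2Space F], Module.finrank ℚ_[p] F ≤ d →
  ∀ ρ : Γ →* Matrix (Fin 2) (Fin 2) F, Continuous ρ → ∀ Z : Set Γ,
  (∀ U : Subgroup Γ, IsOpen (U : Set Γ) → U.Normal → kerV V ⊓ ρ.ker ≤ U →
    U.index ≤ p ^ (d * ((∑ i, n i) + 3) ^ (2 * D)) → ∀ g, ∃ s ∈ Z, s⁻¹ * g ∈ U) →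
  (∀ s ∈ Z, ev Φ (fun i => (mapHom (toF p F) (V i) s).charpoly) (ρ s).trace = 0) →
  ∀ g, ev Φ (fun i => (mapHom (toF p F) (V i) g).charpoly) (ρ g).trace = 0

/-- Row DNS (SHORT-MEDIUM; density). Representations over a topological field: the values of `Φ`
vanish for all group elements iff the values at the places vanish.
Proof. Let `TV i`, `Tρ` be the finite exceptional sets of `Compatible`, `T' = T ∪ ⋃ TV i ∪ Tρ`. For
`v ∉ T'`, `s ∈ frob v` the charpolys of `V i s`, `ρ s` are the images of those of `P i v`, `Q v`, so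
`ev Φ (charpolys of V) (ρ s).trace = ι (val Φ P Q)` (VAL (2) for `f = ι.comp (algebraMap (𝓞 E) E)`;
`(ρ s).trace = - charpoly.coeff 1`, `Matrix.charpoly_fin_two`). (1) The function
`g ↦ ev Φ (..) (ρ g).trace` is continuous (`continuous_rel`, Pool/Agent/helper46/DS/AB.lean, with
`f = Int.castRingHom F`) and vanishes at these `s`, which are dense (`DenseIn`): see the same argument for
`hw0` in `certificate`, Pool/Agent/helper46/DS/Cert.lean. -/
def DNS_stmt : Prop := VAL_stmt → ∀ {r : ℕ} {n : Fin r → ℕ}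
  (Φ : (MvPolynomial (Fin r × ℕ) ℤ)[X]) {Γ Place E : Type} [Group Γ] [TopologicalSpace Γ]
  [IsTopologicalGroup Γ] [CompactSpace Γ] (frob : Place → Set Γ), DenseIn frob ⊤ Set.univ →
  ∀ [Field E] (P : Fin r → Place → ℤ[X]) (Q : Place → (𝓞 E)[X]) (T : Set Place), T.Finite →
  ∀ {F : Type} [Field F] [TopologicalSpace F] [IsTopologicalRing F] [T2Space F] (ι : E →+* F)
    (V : (i : Fin r) → Γ →* Matrix (Fin (n i)) (Fin (n i)) F)
    (ρ : Γ →* Matrix (Fin 2) (Fin 2) F), (∀ i, Continuous (V i)) → Continuous ρ →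
  (∀ i, Compatible frob ι (fun v => (P i v).map (Int.castRingHom E)) (V i)) →
  Compatible frob ι (fun v => (Q v).map (algebraMap (𝓞 E) E)) ρ →
  (∀ v ∉ T, val Φ (fun i => P i v) (Q v) = 0) →
  ∀ g, ev Φ (fun i => (V i g).charpoly) (ρ g).trace = 0

/-- Row RLN (SHORT-MEDIUM; the relation gives `IsRelation`).
Proof. `S = {v | v ∉ T'}`, `T'` = the union of `T` and the finite exceptional sets of the realisation;
`Ψ = (PhiE E Φ).map (MvPolynomial.map (algebraMap (𝓞 E) E))` (that is `Φ` over `E`). Value: the root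
property is `val = 0` mapped to `E`. Nonzero: map to an algebraic closure `F = AlgebraicClosure E`:
for `v ∉ T'` the `P i v` are monic of degree `n i` (as `hmon` in `rel_of_ad`,
Pool/Agent/helper67/RG/TB.lean) and `(∏ i, P i v).coeff 0 ≠ 0` (as `h0` there; this uses `frob v ≠ ∅`),
`P i₀ v = X - C (Q v).coeff 0`: the second part of `IsPhi` for `F`; `Polynomial.map_map`. `NonNegl`:
`nonNeglOpen_of_dense μ frob hd` with `U = ⊤` gives for closed null `C` and finite `T''` a place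
`v ∉ T' ∪ T''` and `s ∈ frob v`, `s ∉ C`. -/
def RLN_stmt : Prop := ∀ {r : ℕ} {n : Fin r → ℕ} (i₀ : Fin r)
  (Φ : (MvPolynomial (Fin r × ℕ) ℤ)[X]), IsPhi n i₀ Φ →
  ∀ {Γ Place E : Type} [Group Γ] [TopologicalSpace Γ]
  [IsTopologicalGroup Γ] [CompactSpace Γ] [MeasurableSpace Γ] [BorelSpace Γ] (μ : Measure Γ)
  [μ.IsHaarMeasure] (frob : Place → Set Γ), (∀ v, (frob v).Nonempty) →
  DenseIn frob ⊤ Set.univ → ∀ [Field E] [NumberField E] (P : Fin r → Place → ℤ[X])
  (Q : Place → (𝓞 E)[X]) (T : Set Place), T.Finite →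
  (∀ v, (P i₀ v).map (Int.castRingHom (𝓞 E)) = X - C ((Q v).coeff 0)) →
  ∀ {F : Type} [Field F] [IsAlgClosed F] [CharZero F] [TopologicalSpace F] [IsTopologicalRing F]
    [T2Space F] (ι : E →+* F) (V : (i : Fin r) → Γ →* Matrix (Fin (n i)) (Fin (n i)) F)
    (ρ : Γ →* Matrix (Fin 2) (Fin 2) F),
  IsRealisation frob (fun i v => (P i v).map (Int.castRingHom E))
    (fun v => (Q v).map (algebraMap (𝓞 E) E)) ι V ρ →
  (∀ v ∉ T, val Φ (fun i => P i v) (Q v) = 0) →
  ∃ (S : Set Place) (Ψ : (MvPolynomial (Fin r × ℕ) E)[X]), NonNegl μ frob S ∧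
    IsRelation (fun i v => (P i v).map (Int.castRingHom E))
      (fun v => (Q v).map (algebraMap (𝓞 E) E)) S Ψ

/-- Row ONE (SHORT; if the relation holds in the residual representations, the kernel acts by scalars).
Proof. For `g ∈ kerV W` all `W i g = 1`, so the roots of the product of the charpolys
`(X - 1) ^ n i` are `1` (`Matrix.charpoly_one`), so `α = β` in `Ratio` and
`(S g).trace ^ 2 = 4 (S g).det`. `TWO` (Pool/Agent/helper72/HZ/TWO.lean; `(2 : κ) ≠ 0` as `p ≠ 2`) for the normal subgroup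
`kerV W`. -/
def ONE_stmt : Prop := ∀ {r : ℕ} {n : Fin r → ℕ} (p : ℕ) (κ : Type) [Field κ]
  [IsAlgClosed κ] [CharP κ p] (G : Type) [Group G]
  (W : (i : Fin r) → G →* Matrix (Fin (n i)) (Fin (n i)) (ZMod p))
  (S : G →* Matrix (Fin 2) (Fin 2) κ), p.Prime → p ≠ 2 → Irred (fun g => S g) →
  (∀ g, Ratio (fun i => ((W i g).map (ZMod.castHom (dvd_refl p) κ)).charpoly)
    (S g).trace (S g).det) → kerV W ≤ adKer S

/-- Row RDX (SHORT-MEDIUM; the reduction on the integers of `E`, openness of the kernels).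
Proof. (1) Integral elements `x` of `E` have `‖ι x‖ ≤ 1`: the norm of `F` is multiplicative and at most
`1` on `ℕ` (`NormedAlgebra ℚ_[p] F`, `‖(m : F)‖ = ‖(m : ℚ_[p])‖ ≤ 1`), so nonarchimedean
(`IsUltrametricDist.isUltrametricDist_of_forall_norm_natCast_le_one`); a root `y = ι x` of a monic
polynomial with integer coefficients with `‖y‖ > 1` is impossible (`‖y ^ n‖` is larger than all other
terms). So `φ x = red (ι x)` is a ring homomorphism by `IsRed` (zero: `red 0 = 0` by `zero_iff`). (2) The set of the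
`g` with `‖(ρ g - 1) a b‖ < 1` for all `a b` is an open neighbourhood of `1` contained in `S.ker`:
`red (x + y) = red x + red y = red x` for `‖y‖ < 1`; `Subgroup.isOpen_of_mem_nhds`. (3) The same for
`W = mapHom toZMod V`: `‖x - y‖ < 1` implies `toZMod x = toZMod y` (`PadicInt.ker_toZMod`,
`PadicInt.norm_lt_one_iff_dvd`..). -/
def RDX_stmt : Prop :=
  (∀ (p : ℕ) [Fact p.Prime] {E F κ : Type} [Field E] [NumberField E] [NormedField F]
    [NormedAlgebra ℚ_[p] F] [Field κ] (ι : E →+* F) (red : F → κ), IsRed red →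
    ∃ φ : 𝓞 E →+* κ, ∀ x : 𝓞 E, red (ι (x : E)) = φ x ∧ ‖ι (x : E)‖ ≤ 1) ∧
  (∀ {Γ F κ : Type} [Group Γ] [TopologicalSpace Γ] [IsTopologicalGroup Γ] [NormedField F]
    [Field κ] (red : F → κ), IsRed red → ∀ (ρ : Γ →* Matrix (Fin 2) (Fin 2) F), Continuous ρ →
    (∀ g a b, ‖ρ g a b‖ ≤ 1) → ∀ S : Γ →* Matrix (Fin 2) (Fin 2) κ,
    (∀ g, S g = (ρ g).map red) → IsOpen (S.ker : Set Γ)) ∧
  ∀ (p : ℕ) [Fact p.Prime] {Γ : Type} [Group Γ] [TopologicalSpace Γ] [IsTopologicalGroup Γ]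
    {m : ℕ} (V : Γ →* Matrix (Fin m) (Fin m) ℤ_[p]), Continuous V →
    IsOpen ((mapHom (PadicInt.toZMod (p := p)) V).ker : Set Γ)

/-- Row RDP (SHORT-MEDIUM; characteristic polynomials and reduction).
Proof. (1) `Matrix.charpoly_fin_two`: `trace` and `det` of `S g = (ρ g).map red` are
`red` of trace and `det` of `ρ g` (`IsRed.add`, `IsRed.mul`; the entries have norm `≤ 1`; `red (-y) = - red y`; the
norm is at most `1` on sums of two products if `F` is nonarchimedean: see RDX, it follows from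
`NormedAlgebra ℚ_[p] F`), and `ρ g` has the charpoly `Q.map (ι.comp ..)`, so they are `red (ι c) = φ c` for the
coefficients `c` of `Q`. (2) `mapHom f V s = (V s).map f`, `Matrix.charpoly_map`, `Polynomial.map_map`,
`RingHom.ext_int`. -/
def RDP_stmt : Prop :=
  (∀ (p : ℕ) [Fact p.Prime] {E F κ : Type} [Field E] [NumberField E] [NormedField F]
    [NormedAlgebra ℚ_[p] F] [Field κ] (ι : E →+* F) (red : F → κ), IsRed red →
    ∀ φ : 𝓞 E →+* κ, (∀ x : 𝓞 E, red (ι (x : E)) = φ x ∧ ‖ι (x : E)‖ ≤ 1) →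
    ∀ (A : Matrix (Fin 2) (Fin 2) F), (∀ a b, ‖A a b‖ ≤ 1) → ∀ Q : (𝓞 E)[X],
    A.charpoly = Q.map (ι.comp (algebraMap (𝓞 E) E)) →
    (A.map red).charpoly = Q.map φ) ∧
  ∀ (p : ℕ) [Fact p.Prime] {κ : Type} [Field κ] [CharP κ p] {m : ℕ}
    (A : Matrix (Fin m) (Fin m) ℤ_[p]) (P : ℤ[X]),
    A.charpoly = P.map (Int.castRingHom ℤ_[p]) →
    ((A.map (PadicInt.toZMod (p := p))).map (ZMod.castHom (dvd_refl p) κ)).charpoly =
      P.map (Int.castRingHom κ)

end Pool.Agent.UM
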