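import Mathlib
import Pool.Agent.helper82.UM.Spec

/-!
# MP_2e0e07_nt, the uniform dichotomy: definitions used in the final statement
-/

set_option autoImplicit false

namespace Pool.Agent.UM

open Matrix Polynomial Pool.Agent.GO Pool.Agent.AR Pool.Agent.RG Pool.Agent.HZ Pool.Agent.DS
  Pool.Agent.AX NumberField

/-- The sets `frob v` of Frobenius elements are nonempty, and dense also after removing finitely
many places; the norms `nv v` are positive and every prime divides finitely many of them. -/
structure IsFrob {Γ Place : Type} [Group Γ] [TopologicalSpace Γ] (frob : Place → Set Γ)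
    (nv : Place → ℕ) : Prop where
  nonempty : ∀ v, (frob v).Nonempty
  dense : DenseIn frob ⊤ Set.univ
  norm_ne_zero : ∀ v, nv v ≠ 0
  finite : ∀ q : ℕ, q.Prime → {v | q ∣ nv v}.Finite

/-- The polynomials `P i v` over `ℤ` and `Q v` over the integers of `E`: one of the `P i v` is
`X - (constant coefficient of Q v)`, and outside the finite set `T` they are monic of degrees `n i`
and `2`, and all conjugates of their roots have absolute value at most `(nv v) ^ w`. -/
structure IsPolys {Place E : Type} [Field E] {r : ℕ} (n : Fin r → ℕ) (i₀ : Fin r) (w : ℕ)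
    (nv : Place → ℕ) (T : Set Place) (P : Fin r → Place → ℤ[X]) (Q : Place → (𝓞 E)[X]) :
    Prop where
  finite : T.Finite
  det : ∀ v, (P i₀ v).map (Int.castRingHom (𝓞 E)) = X - C ((Q v).coeff 0)
  boundP : ∀ v ∉ T, ∀ i, IsBounded (n i) (nv v ^ w) ((P i v).map (Int.castRingHom (𝓞 E)))
  boundQ : ∀ v ∉ T, IsBounded 2 (nv v ^ w) (Q v)

/-- The `V q i`, for all primes `q`, are continuous representations with the characteristic
polynomials `P i v` at the Frobenius elements at the places `v ∉ T` which do not lie over `q`. -/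
structure IsSystem {Γ Place : Type} [Group Γ] [TopologicalSpace Γ] (frob : Place → Set Γ)
    (nv : Place → ℕ) (T : Set Place) {r : ℕ} {n : Fin r → ℕ} (P : Fin r → Place → ℤ[X])
    (V : (q : ℕ) → [Fact q.Prime] → (i : Fin r) → Γ →* Matrix (Fin (n i)) (Fin (n i)) ℤ_[q]) :
    Prop where
  cont : ∀ (q : ℕ) [Fact q.Prime] (i : Fin r), Continuous (V q i)
  charpoly : ∀ (q : ℕ) [Fact q.Prime], ∀ v ∉ T, ¬ q ∣ nv v → ∀ s ∈ frob v, ∀ i,
    (V q i s).charpoly = (P i v).map (Int.castRingHom ℤ_[q])

/-- `ρ` is a continuous representation with the characteristic polynomials `Q v` at the Frobenius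
elements at the places `v ∉ T` which do not lie over `p`. -/
structure HasPolys {Γ Place E F : Type} [Group Γ] [TopologicalSpace Γ] [Field E] [Field F]
    [TopologicalSpace F] (frob : Place → Set Γ) (nv : Place → ℕ) (T : Set Place) (p : ℕ)
    (Q : Place → (𝓞 E)[X]) (ι : E →+* F) (ρ : Γ →* Matrix (Fin 2) (Fin 2) F) : Prop where
  cont : Continuous ρ
  charpoly : ∀ v ∉ T, ¬ p ∣ nv v → ∀ s ∈ frob v,
    (ρ s).charpoly = (Q v).map (ι.comp (algebraMap (𝓞 E) E))

/-- The effective theorem of Chebotarev for the finite Galois extensions contained in the field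
with group `K` (a subgroup of `Γ`): every coset of an open normal subgroup of index at most `B`
which contains `K` contains a Frobenius element at a place `v ∉ T`, not over `p`, of norm at most
`b B * N ^ a B`. -/
def EffectiveChebotarev {Γ Place : Type} [Group Γ] [TopologicalSpace Γ] (frob : Place → Set Γ)
    (nv : Place → ℕ) (T : Set Place) (p : ℕ) (K : Subgroup Γ) (a b : ℕ → ℕ) (N : ℕ) : Prop :=
  ∀ (B : ℕ) (U : Subgroup Γ), IsOpen (U : Set Γ) → U.Normal → K ≤ U → U.index ≤ B →
    ∀ g : Γ, ∃ v ∉ T, ¬ p ∣ nv v ∧ nv v ≤ b B * N ^ a B ∧ ∃ s ∈ frob v, s⁻¹ * g ∈ U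

/-- the `P i v` as polynomials over `E` -/
noncomputable def PE {Place : Type} (E : Type) [Field E] {r : ℕ} (P : Fin r → Place → ℤ[X])
    (i : Fin r) (v : Place) : E[X] := (P i v).map (Int.castRingHom E)

/-- the `Q v` as polynomials over `E` -/
noncomputable def QE {Place E : Type} [Field E] (Q : Place → (𝓞 E)[X]) (v : Place) : E[X] :=
  (Q v).map (algebraMap (𝓞 E) E)

/-- `ρ` is a representation over the integers of the finite extension `F` of `ℚ_[p]` with the
characteristic polynomials `Q v`, `(V, ρ)` is a realisation of `(P, Q)` over the algebraically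
closed field `Ω` containing `F`, and `S` is the reduction of `ρ`, over a field `κ`. -/
structure IsMember {Γ Place E : Type} [Group Γ] [TopologicalSpace Γ] [Field E]
    (frob : Place → Set Γ) (nv : Place → ℕ) (T : Set Place) {r : ℕ} {n : Fin r → ℕ}
    (P : Fin r → Place → ℤ[X]) (Q : Place → (𝓞 E)[X]) (p : ℕ) [Fact p.Prime]
    (V : (i : Fin r) → Γ →* Matrix (Fin (n i)) (Fin (n i)) ℤ_[p])
    {F : Type} (Ω : Type) {κ : Type} [NormedField F] [NormedAlgebra ℚ_[p] F] [Field Ω]
    [Algebra F Ω] [TopologicalSpace Ω] [Field κ] (ι : E →+* F) (red : F → κ)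
    (ρ : Γ →* Matrix (Fin 2) (Fin 2) F) (S : Γ →* Matrix (Fin 2) (Fin 2) κ) : Prop where
  polys : HasPolys frob nv T p Q ι ρ
  integral : ∀ g x y, ‖ρ g x y‖ ≤ 1
  realisation : IsRealisation frob (PE E P) (QE Q) ((algebraMap F Ω).comp ι)
    (fun i => mapHom (padicTo p F Ω) (V i)) (bc (algebraMap F Ω) ρ)
  isRed : IsRed red
  reduction : ∀ g, S g = (ρ g).map red

end Pool.Agent.UM
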