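import Mathlib
import Pool.Agent.helper82.UM.Spec

/-!
# Project UM (MP_2e0e07_nt): the uniform dichotomy, lemmas for the assembly
-/

set_option autoImplicit false

namespace Pool.Agent.UM

open Matrix Polynomial Pool.Agent.GO Pool.Agent.AR Pool.Agent.RG Pool.Agent.HZ Pool.Agent.DS
  Pool.Agent.AX MeasureTheory NumberField

section val

variable {r : ℕ} {n : Fin r → ℕ} {i₀ : Fin r} {Φ : (MvPolynomial (Fin r × ℕ) ℤ)[X]}
  {E : Type} [Field E]

theorem natDegree_of_bounded {m B : ℕ} {P : ℤ[X]}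
    (h : IsBounded m B (P.map (Int.castRingHom (𝓞 E)))) [CharZero E] :
    P.Monic ∧ P.natDegree = m := by
  have hinj : Function.Injective (Int.castRingHom (𝓞 E)) := by
    intro x y hxy
    have h1 : ((x : 𝓞 E) : E) = ((y : 𝓞 E) : E) := by
      have h2 : (x : 𝓞 E) = (y : 𝓞 E) := by simpa using hxy
      rw [h2]
    have h3 : (x : E) = (y : E) := by simpa using h1
    exact_mod_cast h3
  obtain ⟨h1, h2, _⟩ := h
  refine ⟨Polynomial.monic_of_injective hinj h1, ?_⟩
  rw [Polynomial.natDegree_map_eq_of_injective hinj] at h2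
  exact h2

/-- The value of `Φ` maps to zero in an algebraically closed field iff the relation holds there. -/
theorem ratio_iff (hVAL : VAL_stmt) (hΦ : IsPhi n i₀ Φ) {F : Type} [Field F] [IsAlgClosed F]
    (f : 𝓞 E →+* F) (P : Fin r → ℤ[X]) (Q : (𝓞 E)[X])
    (hmon : ∀ i, (P i).Monic ∧ (P i).natDegree = n i)
    (hdet : (P i₀).map (Int.castRingHom (𝓞 E)) = X - C (Q.coeff 0)) :
    f (val Φ P Q) = 0 ↔ Ratio (fun i => (P i).map (Int.castRingHom F)) (-(f (Q.coeff 1)))
      (f (Q.coeff 0)) := by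
  rw [hVAL.2 Φ f P Q]
  refine (hΦ (fun i => (P i).map (Int.castRingHom F)) (f (Q.coeff 0)) (fun i => ?_) ?_).1 _
  · refine ⟨(hmon i).1.map _, ?_⟩
    rw [(hmon i).1.natDegree_map, (hmon i).2]
  · show (P i₀).map (Int.castRingHom F) = X - C (f (Q.coeff 0))
    have h1 := congrArg (Polynomial.map f) hdet
    rw [Polynomial.map_map, Polynomial.map_sub, Polynomial.map_X, Polynomial.map_C] at h1
    rw [← h1]
    congr 1
    exact RingHom.ext_int _ _

theorem ratioAt_iff (hVAL : VAL_stmt) (hΦ : IsPhi n i₀ Φ) (P : Fin r → ℤ[X]) (Q : (𝓞 E)[X])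
    (hmon : ∀ i, (P i).Monic ∧ (P i).natDegree = n i)
    (hdet : (P i₀).map (Int.castRingHom (𝓞 E)) = X - C (Q.coeff 0)) (φ : E →+* ℂ) :
    RatioAt P Q φ ↔ val Φ P Q = 0 := by
  have h1 := ratio_iff hVAL hΦ (φ.comp (algebraMap (𝓞 E) E)) P Q hmon hdet
  have h2 : RatioAt P Q φ ↔ (φ.comp (algebraMap (𝓞 E) E)) (val Φ P Q) = 0 := h1.symm
  rw [h2]
  constructor
  · intro h
    have h3 : φ ((val Φ P Q : 𝓞 E) : E) = 0 := h
    have h4 : ((val Φ P Q : 𝓞 E) : E) = 0 := (map_eq_zero φ).1 h3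
    exact_mod_cast h4
  · intro h
    rw [h, map_zero]

/-- trace and determinant -/
theorem trace_det_of_charpoly {F : Type} [Field F] (A : Matrix (Fin 2) (Fin 2) F) (Q : F[X])
    (h : A.charpoly = Q) : A.trace = -Q.coeff 1 ∧ A.det = Q.coeff 0 := by
  rw [Matrix.charpoly_fin_two] at h
  rw [← h]
  constructor
  · simp [Polynomial.coeff_X, Polynomial.coeff_C]
  · simp [Polynomial.coeff_X, Polynomial.coeff_C]

end val

end Pool.Agent.UM
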