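import Mathlib
import Pool.Agent.helper82.UM.Core

/-!
# Project UM (MP_2e0e07_nt): the uniform dichotomy, local step and global steps
-/

set_option autoImplicit false

namespace Pool.Agent.UM

open Matrix Polynomial Pool.Agent.GO Pool.Agent.AR Pool.Agent.RG Pool.Agent.HZ Pool.Agent.DS
  Pool.Agent.AX MeasureTheory NumberField

section main

variable {r : ℕ} {n : Fin r → ℕ} {i₀ : Fin r} {Φ : (MvPolynomial (Fin r × ℕ) ℤ)[X]}
  {Γ Place E : Type} [Group Γ] [TopologicalSpace Γ] [IsTopologicalGroup Γ]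
  [CompactSpace Γ] (frob : Place → Set Γ) [Field E] [NumberField E]
  (P : Fin r → Place → ℤ[X]) (Q : Place → (𝓞 E)[X])
  (V : (q : ℕ) → [Fact q.Prime] → (i : Fin r) → Γ →* Matrix (Fin (n i)) (Fin (n i)) ℤ_[q])

omit [IsTopologicalGroup Γ] [CompactSpace Γ] [TopologicalSpace Γ] [NumberField E] in
/-- The relation at a place in characteristic `p`. -/
theorem ratio_place (hVAL : VAL_stmt) (hΦ : IsPhi n i₀ Φ) (hRDP : RDP_stmt)
    (p : ℕ) [Fact p.Prime] {κ : Type} [Field κ] [IsAlgClosed κ] [CharP κ p]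
    (φ : 𝓞 E →+* κ) (S : Γ →* Matrix (Fin 2) (Fin 2) κ) (v : Place)
    (hmon : ∀ i, (P i v).Monic ∧ (P i v).natDegree = n i)
    (hdet : (P i₀ v).map (Int.castRingHom (𝓞 E)) = X - C ((Q v).coeff 0))
    (s : Γ) (hV : ∀ i, (V p i s).charpoly = (P i v).map (Int.castRingHom ℤ_[p]))
    (hS : (S s).charpoly = (Q v).map φ) :
    φ (val Φ (fun i => P i v) (Q v)) = 0 ↔
      Ratio (fun i => ((Wm p V i s).map (ZMod.castHom (dvd_refl p) κ)).charpoly)
        (S s).trace (S s).det := by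
  rw [ratio_iff hVAL hΦ φ (fun i => P i v) (Q v) hmon hdet]
  obtain ⟨h1, h2⟩ := trace_det_of_charpoly (S s) _ hS
  rw [h1, h2, Polynomial.coeff_map, Polynomial.coeff_map]
  have h3 : (fun i => ((Wm p V i s).map (ZMod.castHom (dvd_refl p) κ)).charpoly) =
      fun i => (P i v).map (Int.castRingHom κ) := by
    funext i
    exact hRDP.2 p (V p i s) (P i v) (hV i)
  rw [h3]

/-- Step LOC. -/
theorem loc (hVAL : VAL_stmt) (hΦ : IsPhi n i₀ Φ) (hRDP : RDP_stmt) {c : ℕ}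
    (hc : ∀ (p : ℕ) (κ : Type) [Field κ]
      [IsAlgClosed κ] [CharP κ p] (G : Type) [Group G]
      (W : (i : Fin r) → G →* Matrix (Fin (n i)) (Fin (n i)) (ZMod p))
      (S : G →* Matrix (Fin 2) (Fin 2) κ), p.Prime → (∀ i, (W i).ker.FiniteIndex) →
      S.ker.FiniteIndex → Big p S → c * adDegree W S < p →
      ∀ g, Ratio (fun i => ((W i g).map (ZMod.castHom (dvd_refl p) κ)).charpoly)
        (S g).trace (S g).det)
    {D H d w Y : ℕ}
    (hN : ∀ (d : ℕ) {E : Type} [Field E] [NumberField E],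
      Module.finrank ℚ E ≤ d → ∀ (P : Fin r → ℤ[X]) (Q : (𝓞 E)[X]) (B : ℕ), 1 ≤ B →
      (∀ i, IsBounded (n i) B ((P i).map (Int.castRingHom (𝓞 E)))) → IsBounded 2 B Q →
      ∀ (p : ℕ) (κ : Type) [Field κ] [CharP κ p], p.Prime → ∀ f : 𝓞 E →+* κ,
      (H * (((∑ i, n i) + 2) * B) ^ D) ^ d < p → f (val Φ P Q) = 0 → val Φ P Q = 0)
    (hfr : ∀ v, (frob v).Nonempty) (hd : Module.finrank ℚ E ≤ d)
    (nv : Place → ℕ) (hnv : ∀ v, nv v ≠ 0)
    (hdet : ∀ v, (P i₀ v).map (Int.castRingHom (𝓞 E)) = X - C ((Q v).coeff 0))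
    (T : Set Place)
    (hB : ∀ v ∉ T, (∀ i, IsBounded (n i) (nv v ^ w) ((P i v).map (Int.castRingHom (𝓞 E)))) ∧
      IsBounded 2 (nv v ^ w) (Q v))
    (p : ℕ) [Fact p.Prime] {κ : Type} [Field κ] [IsAlgClosed κ] [CharP κ p]
    (hVc : ∀ v ∉ T, ¬ p ∣ nv v → ∀ s ∈ frob v, ∀ i,
      (V p i s).charpoly = (P i v).map (Int.castRingHom ℤ_[p]))
    (φ : 𝓞 E →+* κ) (S : Γ →* Matrix (Fin 2) (Fin 2) κ)
    (hSc : ∀ v ∉ T, ¬ p ∣ nv v → ∀ s ∈ frob v, (S s).charpoly = (Q v).map φ)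
    (hW : ∀ i, IsOpen ((Wm p V i).ker : Set Γ)) (hS : IsOpen (S.ker : Set Γ))
    (hbig : Big p S) (hcp : c * adDegree (Wm p V) S < p) (hYp : Y < p)
    (hp : (H * (((∑ i, n i) + 2) * Y ^ w) ^ D) ^ d < p) :
    ∀ v ∉ T, nv v ≤ Y → val Φ (fun i => P i v) (Q v) = 0 := by
  intro v hv hvY
  have hpn : ¬ p ∣ nv v := fun h => by
    have h1 := Nat.le_of_dvd (Nat.pos_of_ne_zero (hnv v)) h
    omega
  obtain ⟨s, hs⟩ := hfr v
  have hmon : ∀ i, (P i v).Monic ∧ (P i v).natDegree = n i :=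
    fun i => natDegree_of_bounded ((hB v hv).1 i)
  have hfi : ∀ K : Subgroup Γ, IsOpen (K : Set Γ) → K.FiniteIndex := fun K hK => by
    have : Finite (Γ ⧸ K) := K.quotient_finite_of_isOpen hK
    exact Subgroup.finiteIndex_of_finite_quotient
  have h1 := hc p κ Γ (Wm p V) S Fact.out (fun i => hfi _ (hW i)) (hfi _ hS) hbig hcp s
  have h2 := (ratio_place P Q V hVAL hΦ hRDP p φ S v hmon (hdet v) s (hVc v hv hpn s hs)
    (hSc v hv hpn s hs)).2 h1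
  refine hN d hd (fun i => P i v) (Q v) (nv v ^ w) ?_ (hB v hv).1 (hB v hv).2 p κ Fact.out φ ?_ h2
  · exact Nat.one_le_pow _ _ (Nat.pos_of_ne_zero (hnv v))
  · refine lt_of_le_of_lt ?_ hp
    gcongr

/-- Step ONE. -/
theorem one (hVAL : VAL_stmt) (hΦ : IsPhi n i₀ Φ) (hRDP : RDP_stmt) (hONE : ONE_stmt)
    (hd : DenseIn frob ⊤ Set.univ) {w : ℕ}
    (nv : Place → ℕ)
    (hdet : ∀ v, (P i₀ v).map (Int.castRingHom (𝓞 E)) = X - C ((Q v).coeff 0))
    (T : Set Place) (hT : T.Finite)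
    (hB : ∀ v ∉ T, (∀ i, IsBounded (n i) (nv v ^ w) ((P i v).map (Int.castRingHom (𝓞 E)))) ∧
      IsBounded 2 (nv v ^ w) (Q v))
    (p : ℕ) [Fact p.Prime] (hp2 : p ≠ 2) (hfin : {v | p ∣ nv v}.Finite)
    {κ : Type} [Field κ] [IsAlgClosed κ] [CharP κ p]
    (hVc : ∀ v ∉ T, ¬ p ∣ nv v → ∀ s ∈ frob v, ∀ i,
      (V p i s).charpoly = (P i v).map (Int.castRingHom ℤ_[p]))
    (φ : 𝓞 E →+* κ) (S : Γ →* Matrix (Fin 2) (Fin 2) κ)
    (hSc : ∀ v ∉ T, ¬ p ∣ nv v → ∀ s ∈ frob v, (S s).charpoly = (Q v).map φ)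
    (hW : ∀ i, IsOpen ((Wm p V i).ker : Set Γ)) (hS : IsOpen (S.ker : Set Γ))
    (hirr : Irred fun g => S g)
    (h0 : ∀ v ∉ T, val Φ (fun i => P i v) (Q v) = 0) : kerV (Wm p V) ≤ adKer S := by
  refine hONE p κ Γ (Wm p V) S Fact.out hp2 hirr fun g => ?_
  -- the open subgroup
  let K : Subgroup Γ := kerV (Wm p V) ⊓ S.ker
  have hK : IsOpen (K : Set Γ) := by
    have h1 : (K : Set Γ) = (⋂ i, ((Wm p V i).ker : Set Γ)) ∩ (S.ker : Set Γ) := by
      show (((⨅ i, (Wm p V i).ker) ⊓ S.ker : Subgroup Γ) : Set Γ) = _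
      rw [Subgroup.coe_inf, Subgroup.coe_iInf]
    rw [h1]
    exact (isOpen_iInter_of_finite hW).inter hS
  let O : Set Γ := {x | g⁻¹ * x ∈ K}
  have hO : IsOpen O := hK.preimage (continuous_const_mul g⁻¹)
  obtain ⟨v, _, hvT, s, hs, _, hsO⟩ := hd O (T ∪ {v | p ∣ nv v}) hO
    ⟨g, by show g⁻¹ * g ∈ K; rw [inv_mul_cancel]; exact K.one_mem, Subgroup.mem_top g⟩
    (hT.union hfin)
  have hv : v ∉ T := fun h => hvT (Or.inl h)
  have hpn : ¬ p ∣ nv v := fun h => hvT (Or.inr h)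
  have hmon : ∀ i, (P i v).Monic ∧ (P i v).natDegree = n i :=
    fun i => natDegree_of_bounded ((hB v hv).1 i)
  have h2 := (ratio_place P Q V hVAL hΦ hRDP p φ S v hmon (hdet v) s (hVc v hv hpn s hs)
    (hSc v hv hpn s hs)).1 (by rw [h0 v hv, map_zero])
  have hsK : g⁻¹ * s ∈ K := hsO
  have hsW : ∀ i, Wm p V i s = Wm p V i g := by
    intro i
    have h3 : g⁻¹ * s ∈ kerV (Wm p V) := hsK.1
    have h4 : Wm p V i (g⁻¹ * s) = 1 := (Subgroup.mem_iInf.1 h3 i)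
    have h5 : Wm p V i g * Wm p V i (g⁻¹ * s) = Wm p V i s := by
      rw [← map_mul, mul_inv_cancel_left]
    rw [h4, mul_one] at h5
    exact h5.symm
  have hsS : S s = S g := by
    have h4 : S (g⁻¹ * s) = 1 := hsK.2
    have h5 : S g * S (g⁻¹ * s) = S s := by
      rw [← map_mul, mul_inv_cancel_left]
    rw [h4, mul_one] at h5
    exact h5.symm
  rw [hsS] at h2
  simp only [hsW] at h2
  exact h2

end main

end Pool.Agent.UM
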