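import Mathlib
import Pool.Agent.helper82.UM.Core2

/-!
# Project UM (MP_2e0e07_nt): the uniform dichotomy, global steps
-/

set_option autoImplicit false

namespace Pool.Agent.UM

open Matrix Polynomial Pool.Agent.GO Pool.Agent.AR Pool.Agent.RG Pool.Agent.HZ Pool.Agent.DS
  Pool.Agent.AX MeasureTheory NumberField

section main

variable {r : ℕ} {n : Fin r → ℕ} {i₀ : Fin r} {Φ : (MvPolynomial (Fin r × ℕ) ℤ)[X]}
  {Γ Place E : Type} [Group Γ] [TopologicalSpace Γ] [IsTopologicalGroup Γ]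
  [CompactSpace Γ] (frob : Place → Set Γ) [Field E] [NumberField E]
  (P : Fin r → Place → ℤ[X]) (Q : Place → (𝓞 E)[X])
  (V : (q : ℕ) → [Fact q.Prime] → (i : Fin r) → Γ →* Matrix (Fin (n i)) (Fin (n i)) ℤ_[q])

omit [NumberField E] in
/-- The value of `Φ` at matrices with characteristic polynomials `P i`, `Q`. -/
theorem ev_eq (hVAL : VAL_stmt) {F : Type} [Field F] (f : 𝓞 E →+* F) (P : Fin r → ℤ[X])
    (Q : (𝓞 E)[X]) (W : (i : Fin r) → Matrix (Fin (n i)) (Fin (n i)) F)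
    (A : Matrix (Fin 2) (Fin 2) F) (hW : ∀ i, (W i).charpoly = (P i).map (Int.castRingHom F))
    (hA : A.charpoly = Q.map f) :
    ev Φ (fun i => (W i).charpoly) A.trace = f (val Φ P Q) := by
  rw [hVAL.2 Φ f P Q, (trace_det_of_charpoly A _ hA).1, Polynomial.coeff_map]
  have h1 : (fun i => (W i).charpoly) = fun i => (P i).map (Int.castRingHom F) := funext hW
  rw [h1]

omit [NumberField E] in
theorem val_eq_zero_of_map {F : Type} [Field F] (ι : E →+* F) {P : Fin r → ℤ[X]} {Q : (𝓞 E)[X]}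
    (h : (ι.comp (algebraMap (𝓞 E) E)) (val Φ P Q) = 0) : val Φ P Q = 0 := by
  have h3 : ι ((val Φ P Q : 𝓞 E) : E) = 0 := h
  have h4 : ((val Φ P Q : 𝓞 E) : E) = 0 := (map_eq_zero ι).1 h3
  exact_mod_cast h4

theorem charpoly_mapHom {R R' : Type} [CommRing R] [CommRing R'] {m : ℕ} (j : R →+* R')
    (W : Γ →* Matrix (Fin m) (Fin m) R) (g : Γ) :
    (mapHom j W g).charpoly = (W g).charpoly.map j := by
  show ((W g).map j).charpoly = _
  rw [Matrix.charpoly_map]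

theorem charpoly_bc {F Ω : Type} [Field F] [Field Ω] {m : ℕ} (j : F →+* Ω)
    (W : Γ →* Matrix (Fin m) (Fin m) F) (g : Γ) :
    (bc j W g).charpoly = (W g).charpoly.map j := by
  show ((W g).map j).charpoly = _
  rw [Matrix.charpoly_map]

/-- Step FAL. -/
theorem fal (hVAL : VAL_stmt) (hFAL : FAL_stmt) {D : ℕ} (hW : HasWeight n Φ D) {d Y : ℕ}
    (hfr : ∀ v, (frob v).Nonempty) (nv : Place → ℕ) (T : Set Place)
    (p₀ : ℕ) [Fact p₀.Prime] (hV : ∀ i, Continuous (V p₀ i))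
    (hVc : ∀ v ∉ T, ¬ p₀ ∣ nv v → ∀ s ∈ frob v, ∀ i,
      (V p₀ i s).charpoly = (P i v).map (Int.castRingHom ℤ_[p₀]))
    {F₀ : Type} [NormedField F₀] [NormedAlgebra ℚ_[p₀] F₀] [FiniteDimensional ℚ_[p₀] F₀]
    (hF₀ : Module.finrank ℚ_[p₀] F₀ ≤ d) (ι₀ : E →+* F₀) (ρ₀ : Γ →* Matrix (Fin 2) (Fin 2) F₀)
    (hρ₀ : Continuous ρ₀)
    (hρc : ∀ v ∉ T, ¬ p₀ ∣ nv v → ∀ s ∈ frob v,
      (ρ₀ s).charpoly = (Q v).map (ι₀.comp (algebraMap (𝓞 E) E)))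
    (hEC : ∀ U : Subgroup Γ, IsOpen (U : Set Γ) → U.Normal → kerV (V p₀) ⊓ ρ₀.ker ≤ U →
      U.index ≤ p₀ ^ (d * ((∑ i, n i) + 3) ^ (2 * D)) →
      ∀ g, ∃ v ∉ T, ¬ p₀ ∣ nv v ∧ nv v ≤ Y ∧ ∃ s ∈ frob v, s⁻¹ * g ∈ U)
    (h0 : ∀ v ∉ T, nv v ≤ Y → val Φ (fun i => P i v) (Q v) = 0) :
    ∀ v ∉ T, ¬ p₀ ∣ nv v → val Φ (fun i => P i v) (Q v) = 0 := by
  have hval : ∀ v ∉ T, ¬ p₀ ∣ nv v → ∀ s ∈ frob v,
      ev Φ (fun i => (mapHom (toF p₀ F₀) (V p₀ i) s).charpoly) (ρ₀ s).trace =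
        (ι₀.comp (algebraMap (𝓞 E) E)) (val Φ (fun i => P i v) (Q v)) := by
    intro v hv hp s hs
    refine ev_eq hVAL _ (fun i => P i v) (Q v) (fun i => mapHom (toF p₀ F₀) (V p₀ i) s) (ρ₀ s)
      (fun i => ?_) (hρc v hv hp s hs)
    rw [charpoly_mapHom, hVc v hv hp s hs i, Polynomial.map_map]
    congr 1
    exact RingHom.ext_int _ _
  have hall := hFAL n Φ D hW d p₀ (V p₀) hV F₀ hF₀ ρ₀ hρ₀
    {s | ∃ v ∉ T, ¬ p₀ ∣ nv v ∧ nv v ≤ Y ∧ s ∈ frob v}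
    (fun U hU hUn hUk hUi g => by
      obtain ⟨v, hv, h1, h2, s, hs, h3⟩ := hEC U hU hUn hUk hUi g
      exact ⟨s, ⟨v, hv, h1, h2, hs⟩, h3⟩)
    (by
      rintro s ⟨v, hv, h1, h2, hs⟩
      rw [hval v hv h1 s hs, h0 v hv h2, map_zero])
  intro v hv hp
  obtain ⟨s, hs⟩ := hfr v
  have h1 := hall s
  rw [hval v hv hp s hs] at h1
  exact val_eq_zero_of_map ι₀ h1

/-- Step DNS: spreading out. -/
theorem spread (hVAL : VAL_stmt) (hDNS : DNS_stmt) (hfr : ∀ v, (frob v).Nonempty)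
    (hd : DenseIn frob ⊤ Set.univ) (nv : Place → ℕ) (T T' : Set Place) (hT' : T'.Finite)
    (p : ℕ) [Fact p.Prime] 
    (hVc : ∀ v ∉ T, ¬ p ∣ nv v → ∀ s ∈ frob v, ∀ i,
      (V p i s).charpoly = (P i v).map (Int.castRingHom ℤ_[p]))
    {F Ω : Type} [NormedField F] [NormedAlgebra ℚ_[p] F] [Field Ω] [Algebra F Ω]
    [TopologicalSpace Ω] [IsTopologicalRing Ω] [T2Space Ω]
    (ι : E →+* F) (ρ : Γ →* Matrix (Fin 2) (Fin 2) F)
    (hρc : ∀ v ∉ T, ¬ p ∣ nv v → ∀ s ∈ frob v,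
      (ρ s).charpoly = (Q v).map (ι.comp (algebraMap (𝓞 E) E)))
    (hR : IsRealisation frob (fun i v => (P i v).map (Int.castRingHom E))
      (fun v => (Q v).map (algebraMap (𝓞 E) E)) ((algebraMap F Ω).comp ι)
      (fun i => mapHom (padicTo p F Ω) (V p i)) (bc (algebraMap F Ω) ρ))
    (h0 : ∀ v ∉ T', val Φ (fun i => P i v) (Q v) = 0) :
    ∀ v ∉ T, ¬ p ∣ nv v → val Φ (fun i => P i v) (Q v) = 0 := by
  have hall := hDNS hVAL Φ frob hd P Q T' hT' ((algebraMap F Ω).comp ι)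
    (fun i => mapHom (padicTo p F Ω) (V p i)) (bc (algebraMap F Ω) ρ) hR.contV hR.cont hR.compV
    hR.comp h0
  intro v hv hp
  obtain ⟨s, hs⟩ := hfr v
  have h1 := hall s
  have h2 := ev_eq (Φ := Φ) hVAL (((algebraMap F Ω).comp ι).comp (algebraMap (𝓞 E) E))
    (fun i => P i v) (Q v) (fun i => mapHom (padicTo p F Ω) (V p i) s)
    (bc (algebraMap F Ω) ρ s) (fun i => by
      rw [charpoly_mapHom, hVc v hv hp s hs i, Polynomial.map_map]
      congr 1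
      exact RingHom.ext_int _ _) (by
      rw [charpoly_bc, hρc v hv hp s hs, Polynomial.map_map]
      rfl)
  rw [h1] at h2
  exact val_eq_zero_of_map _ h2.symm

end main

end Pool.Agent.UM
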