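import Mathlib
import Pool.Agent.helper82.UM.Core3

/-!
# Project UM (MP_2e0e07_nt): the uniform dichotomy, residual data and constants
-/

set_option autoImplicit false

namespace Pool.Agent.UM

open Matrix Polynomial Pool.Agent.GO Pool.Agent.AR Pool.Agent.RG Pool.Agent.HZ Pool.Agent.DS
  Pool.Agent.AX MeasureTheory NumberField

theorem const_bound (H m b N a w D d : ℕ) :
    (H * (m * (b * N ^ a) ^ w) ^ D) ^ d = (H * (m * b ^ w) ^ D) ^ d * N ^ (a * (w * D * d)) := by
  have h1 : (b * N ^ a) ^ w = b ^ w * N ^ (a * w) := by rw [mul_pow, ← pow_mul]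
  have h2 : (m * (b ^ w * N ^ (a * w))) ^ D = (m * b ^ w) ^ D * N ^ (a * w * D) := by
    rw [← mul_assoc, mul_pow, ← pow_mul]
  rw [h1, h2, ← mul_assoc, mul_pow (H * (m * b ^ w) ^ D), ← pow_mul]
  congr 2
  ring

theorem finite_le {J : Type} (p : J → ℕ) (hp : Function.Injective p) (m : ℕ) :
    {j | p j ≤ m}.Finite :=
  Set.Finite.preimage hp.injOn (Set.finite_Iic m)

theorem finite_dvd {J : Type} (p : J → ℕ) (hp : Function.Injective p) {m : ℕ} (hm : m ≠ 0) :
    {j | p j ∣ m}.Finite :=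
  (finite_le p hp m).subset fun _ hj => Nat.le_of_dvd (Nat.pos_of_ne_zero hm) hj

theorem exists_gt {J : Type} (p : J → ℕ) (hp : Function.Injective p) {s : Set J}
    (hs : s.Infinite) (m : ℕ) : ∃ j ∈ s, m < p j := by
  obtain ⟨j, hj, h⟩ := hs.exists_notMem_finite (finite_le p hp m)
  exact ⟨j, hj, not_le.1 h⟩

section main

variable {r : ℕ} {n : Fin r → ℕ} {i₀ : Fin r}
  {Γ Place E : Type} [Group Γ] [TopologicalSpace Γ] [IsTopologicalGroup Γ]
  [CompactSpace Γ] (frob : Place → Set Γ) [Field E] [NumberField E]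
  (P : Fin r → Place → ℤ[X]) (Q : Place → (𝓞 E)[X])
  (V : (q : ℕ) → [Fact q.Prime] → (i : Fin r) → Γ →* Matrix (Fin (n i)) (Fin (n i)) ℤ_[q])

/-- The residual data. -/
theorem isResidual (hRDP : RDP_stmt) (nv : Place → ℕ) (hnv : ∀ v, nv v ≠ 0)
    (hfin : ∀ q : ℕ, q.Prime → {v | q ∣ nv v}.Finite) (T : Set Place) (hT : T.Finite)
    (hVc : ∀ (q : ℕ) [Fact q.Prime], ∀ v ∉ T, ¬ q ∣ nv v → ∀ s ∈ frob v, ∀ i,
      (V q i s).charpoly = (P i v).map (Int.castRingHom ℤ_[q]))
    {J : Type} (p : J → ℕ) [∀ j, Fact (p j).Prime] (hp : Function.Injective p)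
    (κ : J → Type) [∀ j, Field (κ j)] [∀ j, CharP (κ j) (p j)] (φ : ∀ j, 𝓞 E →+* κ j)
    (S : ∀ j, Γ →* Matrix (Fin 2) (Fin 2) (κ j))
    (hSc : ∀ j, ∀ v ∉ T, ¬ p j ∣ nv v → ∀ s ∈ frob v, (S j s).charpoly = (Q v).map (φ j))
    (hW : ∀ j i, IsOpen ((Wm (p j) V i).ker : Set Γ)) (hS : ∀ j, IsOpen ((S j).ker : Set Γ))
    (hbig : ∀ j, Big (p j) (S j)) :
    IsResidual frob (fun i v => (P i v).map (Int.castRingHom E))
      (fun v => (Q v).map (algebraMap (𝓞 E) E)) p κ φ (fun j => Wm (p j) V) S where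
  prime j := Fact.out
  tends m := finite_le p hp m
  openV := hW
  openρ := hS
  comp := by
    refine ⟨T, fun j => T ∪ {v | p j ∣ nv v}, hT, fun j => hT.union (hfin (p j) Fact.out),
      fun v hv => ?_, fun j v hv s hs => ⟨fun i k => ?_, fun k => ?_⟩⟩
    · refine (finite_dvd p hp (hnv v)).subset ?_
      rintro j (hj | hj)
      · exact absurd hj hv
      · exact hj
    · have hvT : v ∉ T := fun h => hv (Or.inl h)
      have hvp : ¬ p j ∣ nv v := fun h => hv (Or.inr h)
      refine ⟨((P i v).coeff k : 𝓞 E), 1, by rw [Nat.cast_one]; exact one_ne_zero, ?_, ?_⟩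
      · rw [Nat.cast_one, one_mul, Polynomial.coeff_map]
        simp
      · have h1 := hRDP.2 (p j) (κ := κ j) (V (p j) i s) (P i v) (hVc (p j) v hvT hvp s hs i)
        have h2 := congrArg (fun f => f.coeff k) h1
        simp only [Matrix.charpoly_map, Polynomial.coeff_map] at h2
        rw [Nat.cast_one, one_mul, map_intCast]
        show ZMod.castHom (dvd_refl (p j)) (κ j)
          (((V (p j) i s).map (PadicInt.toZMod (p := p j))).charpoly.coeff k) = _
        rw [Matrix.charpoly_map, Polynomial.coeff_map, h2]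
        simp
    · have hvT : v ∉ T := fun h => hv (Or.inl h)
      have hvp : ¬ p j ∣ nv v := fun h => hv (Or.inr h)
      refine ⟨(Q v).coeff k, 1, by rw [Nat.cast_one]; exact one_ne_zero, ?_, ?_⟩
      · rw [Nat.cast_one, one_mul, Polynomial.coeff_map]
      · rw [Nat.cast_one, one_mul, hSc j v hvT hvp s hs, Polynomial.coeff_map]
  irr j := (hbig j).1
  ord j := (hbig j).2

end main

end Pool.Agent.UM
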