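import Mathlib
import Pool.Agent.helper82.UM.Core4

/-!
# Project UM (MP_2e0e07_nt): the uniform dichotomy, assembly
-/

set_option autoImplicit false

namespace Pool.Agent.UM

open Matrix Polynomial Pool.Agent.GO Pool.Agent.AR Pool.Agent.RG Pool.Agent.HZ Pool.Agent.DS
  Pool.Agent.AX MeasureTheory NumberField

/-- **The final statement.** -/
def MAINU_stmt : Prop := ∀ (r : ℕ) (n : Fin r → ℕ) (i₀ : Fin r) (d w p₀ : ℕ) [Fact p₀.Prime]
    (a b : ℕ → ℕ),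
    ∃ c₁ c₂ : ℕ, ∀ {Γ Place E J : Type} [Group Γ] [TopologicalSpace Γ] [IsTopologicalGroup Γ]
    [CompactSpace Γ] [MeasurableSpace Γ] [BorelSpace Γ] (μ : Measure Γ) [μ.IsHaarMeasure]
    (frob : Place → Set Γ) (_ : ∀ v, (frob v).Nonempty) (_ : DenseIn frob ⊤ Set.univ)
    [Field E] [NumberField E] (_ : Module.finrank ℚ E ≤ d)
    (nv : Place → ℕ) (_ : ∀ v, nv v ≠ 0) (_ : ∀ q : ℕ, q.Prime → {v | q ∣ nv v}.Finite)
    (P : Fin r → Place → ℤ[X]) (Q : Place → (𝓞 E)[X])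
    (_ : ∀ v, (P i₀ v).map (Int.castRingHom (𝓞 E)) = X - C ((Q v).coeff 0))
    (T : Set Place) (_ : T.Finite) (N : ℕ) (_ : 1 ≤ N)
    (_ : ∀ v ∉ T, (∀ i, IsBounded (n i) (nv v ^ w) ((P i v).map (Int.castRingHom (𝓞 E)))) ∧
      IsBounded 2 (nv v ^ w) (Q v))
    (V : (q : ℕ) → [Fact q.Prime] → (i : Fin r) → Γ →* Matrix (Fin (n i)) (Fin (n i)) ℤ_[q])
    (_ : ∀ (q : ℕ) [Fact q.Prime] (i : Fin r), Continuous (V q i))
    (_ : ∀ (q : ℕ) [Fact q.Prime], ∀ v ∉ T, ¬ q ∣ nv v → ∀ s ∈ frob v, ∀ i,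
      (V q i s).charpoly = (P i v).map (Int.castRingHom ℤ_[q]))
    (F₀ : Type) [NormedField F₀] [NormedAlgebra ℚ_[p₀] F₀] [FiniteDimensional ℚ_[p₀] F₀]
    (_ : Module.finrank ℚ_[p₀] F₀ ≤ d) (ι₀ : E →+* F₀)
    (ρ₀ : Γ →* Matrix (Fin 2) (Fin 2) F₀) (_ : Continuous ρ₀)
    (_ : ∀ v ∉ T, ¬ p₀ ∣ nv v → ∀ s ∈ frob v,
      (ρ₀ s).charpoly = (Q v).map (ι₀.comp (algebraMap (𝓞 E) E)))
    (_ : ∀ (B : ℕ) (U : Subgroup Γ), IsOpen (U : Set Γ) → U.Normal →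
      kerV (V p₀) ⊓ ρ₀.ker ≤ U → U.index ≤ B → ∀ g : Γ,
      ∃ v ∉ T, ¬ p₀ ∣ nv v ∧ nv v ≤ b B * N ^ a B ∧ ∃ s ∈ frob v, s⁻¹ * g ∈ U)
    (p : J → ℕ) [∀ j, Fact (p j).Prime] (_ : Function.Injective p)
    (F Ω κ : J → Type) [∀ j, NormedField (F j)] [∀ j, NormedAlgebra ℚ_[p j] (F j)]
    [∀ j, FiniteDimensional ℚ_[p j] (F j)] [∀ j, Field (Ω j)] [∀ j, IsAlgClosed (Ω j)]
    [∀ j, CharZero (Ω j)] [∀ j, Algebra (F j) (Ω j)] [∀ j, TopologicalSpace (Ω j)]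
    [∀ j, IsTopologicalRing (Ω j)] [∀ j, T2Space (Ω j)]
    [∀ j, Field (κ j)] [∀ j, IsAlgClosed (κ j)] [∀ j, CharP (κ j) (p j)]
    (ι : ∀ j, E →+* F j) (red : ∀ j, F j → κ j) (_ : ∀ j, IsRed (red j))
    (ρ : ∀ j, Γ →* Matrix (Fin 2) (Fin 2) (F j)) (_ : ∀ j, Continuous (ρ j))
    (_ : ∀ j g x y, ‖ρ j g x y‖ ≤ 1)
    (_ : ∀ j, ∀ v ∉ T, ¬ p j ∣ nv v → ∀ s ∈ frob v,
      (ρ j s).charpoly = (Q v).map ((ι j).comp (algebraMap (𝓞 E) E)))
    (_ : ∀ j, IsRealisation frob (fun i v => (P i v).map (Int.castRingHom E))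
      (fun v => (Q v).map (algebraMap (𝓞 E) E)) ((algebraMap (F j) (Ω j)).comp (ι j))
      (fun i => mapHom (padicTo (p j) (F j) (Ω j)) (V (p j) i))
      (bc (algebraMap (F j) (Ω j)) (ρ j)))
    (S : ∀ j, Γ →* Matrix (Fin 2) (Fin 2) (κ j)) (_ : ∀ j g, S j g = (ρ j g).map (red j))
    (_ : {j | Big (p j) (S j)}.Infinite),
      (AllArise.{0} μ frob n (fun i v => (P i v).map (Int.castRingHom E))
          (fun v => (Q v).map (algebraMap (𝓞 E) E)) ∧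
        (∀ v ∉ T, ∀ φ : E →+* ℂ, RatioAt (fun i => P i v) (Q v) φ) ∧
        (∀ j, Big (p j) (S j) → p j ≠ 2 → kerV (Wm (p j) V) ≤ adKer (S j)) ∧
        ∀ j, (kerV (V (p j)) ⊔ adKer (ρ j)).index = 0) ∨
      (NoneArises.{0} μ frob n (fun i v => (P i v).map (Int.castRingHom E))
          (fun v => (Q v).map (algebraMap (𝓞 E) E)) ∧
        (∃ v ∉ T, nv v ≤ c₁ * N ^ c₂ ∧ ∀ φ : E →+* ℂ, ¬ RatioAt (fun i => P i v) (Q v) φ) ∧
        (∀ j, (cross V ρ j).index ≠ 0 ∧ (Big (p j) (S j) → c₁ * N ^ c₂ < p j →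
          ¬ kerV (Wm (p j) V) ≤ adKer (S j) ∧ (cross V ρ j).index ≤ 2)) ∧
        ∀ g : J → Γ, (∀ j, g j ∈ cross V ρ j) →
          ∃ h ∈ kerAll V, ∀ j, h⁻¹ * g j ∈ adKer (ρ j))

theorem MAINU (hPHI : PHI_stmt) (hUHT : UHT_stmt) (hVAL : VAL_stmt) (hNRM : NRM_stmt)
    (hFAL : FAL_stmt) (hDNS : DNS_stmt) (hRLN : RLN_stmt) (hONE : ONE_stmt) (hRDX : RDX_stmt)
    (hRDP : RDP_stmt) : MAINU_stmt := by
  intro r n i₀ d w p₀ _ a b
  obtain ⟨Φ, hΦ⟩ := hPHI r n i₀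
  obtain ⟨c, hc⟩ := hUHT r n
  obtain ⟨D, H, hW, hN⟩ := hNRM n Φ
  let B : ℕ := p₀ ^ (d * ((∑ i, n i) + 3) ^ (2 * D))
  let m : ℕ := 3 + ∑ i, n i
  have hm3 : 3 ≤ m := Nat.le_add_right _ _
  have hmn : ∀ i, n i ≤ m := fun i =>
    (Finset.single_le_sum (f := n) (fun _ _ => Nat.zero_le _) (Finset.mem_univ i)).trans
      (Nat.le_add_left _ _)
  let C₁ : ℕ := (H * (((∑ i, n i) + 2) * b B ^ w) ^ D) ^ d
  refine ⟨C₁ + (2 * m.factorial + 1) + b B + c, a B * (w * D * d + 1), ?_⟩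
  intro Γ Place E J _ _ _ _ _ _ μ _ frob hfr hdense _ _ hdE nv hnv hnvfin P Q hdet T hT N hN1 hB
    V hV hVc F₀ _ _ _ hdF₀ ι₀ ρ₀ hρ₀ hρ₀c hEC p _ hp F Ω κ _ _ _ _ _ _ _ _ _ _ _ _ _ ι red hred
    ρ hρ hint hρc hR S hS hinf
  classical
  -- the constants
  let Y : ℕ := b B * N ^ a B
  let M : ℕ := (C₁ + (2 * m.factorial + 1) + b B + c) * N ^ (a B * (w * D * d + 1))
  have hNA : 1 ≤ N ^ (a B * (w * D * d + 1)) := Nat.one_le_pow _ _ hN1
  have hYM : Y ≤ M := by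
    show b B * N ^ a B ≤ (C₁ + (2 * m.factorial + 1) + b B + c) * N ^ (a B * (w * D * d + 1))
    refine Nat.mul_le_mul (by omega) (Nat.pow_le_pow_right hN1 ?_)
    exact Nat.le_mul_of_pos_right _ (Nat.succ_pos _)
  have hXM : (H * (((∑ i, n i) + 2) * Y ^ w) ^ D) ^ d ≤ M := by
    show (H * (((∑ i, n i) + 2) * (b B * N ^ a B) ^ w) ^ D) ^ d ≤
      (C₁ + (2 * m.factorial + 1) + b B + c) * N ^ (a B * (w * D * d + 1))
    rw [const_bound]
    refine Nat.mul_le_mul (by omega) (Nat.pow_le_pow_right hN1 ?_)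
    exact Nat.mul_le_mul_left _ (Nat.le_succ _)
  have hmM : 2 * m.factorial + 1 + c ≤ M := by
    calc 2 * m.factorial + 1 + c ≤ (C₁ + (2 * m.factorial + 1) + b B + c) * 1 := by omega
      _ ≤ M := Nat.mul_le_mul_left _ hNA
  -- the polynomials
  let P' : Fin r → Place → E[X] := fun i v => (P i v).map (Int.castRingHom E)
  let Q' : Place → E[X] := fun v => (Q v).map (algebraMap (𝓞 E) E)
  have hdet' : ∀ v, P' i₀ v = X - C ((Q' v).coeff 0) := by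
    intro v
    have h1 := congrArg (Polynomial.map (algebraMap (𝓞 E) E)) (hdet v)
    rw [Polynomial.map_map, Polynomial.map_sub, Polynomial.map_X, Polynomial.map_C] at h1
    show (P i₀ v).map (Int.castRingHom E) = X - C (((Q v).map (algebraMap (𝓞 E) E)).coeff 0)
    rw [Polynomial.coeff_map, ← h1, RingHom.ext_int (Int.castRingHom E)
      ((algebraMap (𝓞 E) E).comp (Int.castRingHom (𝓞 E)))]
  have hmon : ∀ v ∉ T, ∀ i, (P i v).Monic ∧ (P i v).natDegree = n i :=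
    fun v hv i => natDegree_of_bounded ((hB v hv).1 i)
  -- the reductions
  have hφ : ∀ j, ∃ φ : 𝓞 E →+* κ j, ∀ x : 𝓞 E, red j (ι j (x : E)) = φ x ∧ ‖ι j (x : E)‖ ≤ 1 :=
    fun j => hRDX.1 (p j) (ι j) (red j) (hred j)
  choose φ hφ using hφ
  have hSc : ∀ j, ∀ v ∉ T, ¬ p j ∣ nv v → ∀ s ∈ frob v, (S j s).charpoly = (Q v).map (φ j) := by
    intro j v hv hpv s hs
    rw [hS j s]
    exact hRDP.1 (p j) (ι j) (red j) (hred j) (φ j) (hφ j) (ρ j s) (fun x y => hint j s x y)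
      (Q v) (hρc j v hv hpv s hs)
  have hWo : ∀ j i, IsOpen ((Wm (p j) V i).ker : Set Γ) := fun j i =>
    hRDX.2.2 (p j) (V (p j) i) (hV (p j) i)
  have hSo : ∀ j, IsOpen ((S j).ker : Set Γ) := fun j =>
    hRDX.2.1 (red j) (hred j) (ρ j) (hρ j) (hint j) (S j) (hS j)
  -- the relation at all places, and at places of small norm
  have hLOC : ∀ j, Big (p j) (S j) → M < p j → c * adDegree (Wm (p j) V) (S j) < p j →
      ∀ v ∉ T, nv v ≤ Y → val Φ (fun i => P i v) (Q v) = 0 := fun j hj hMj hcj =>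
    loc frob P Q V hVAL hΦ hRDP hc hN hfr hdE nv hnv hdet T hB (p j) (hVc (p j)) (φ j) (S j)
      (hSc j) (hWo j) (hSo j) hj hcj (by omega) (by omega)
  have hSPR : (∀ v ∉ T, nv v ≤ Y → val Φ (fun i => P i v) (Q v) = 0) →
      ∀ v ∉ T, val Φ (fun i => P i v) (Q v) = 0 := by
    intro h0 v hv
    have h1 := fal frob P Q V hVAL hFAL hW hfr nv T p₀ (hV p₀) (hVc p₀) hdF₀ ι₀ ρ₀ hρ₀ hρ₀c
      (Y := Y) (fun U hU hUn hUk hUi g => hEC B U hU hUn hUk hUi g) h0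
    obtain ⟨j, _, hj⟩ := exists_gt p hp hinf (nv v)
    have h2 : ¬ p j ∣ nv v := fun h => by
      have h3 := Nat.le_of_dvd (Nat.pos_of_ne_zero (hnv v)) h
      omega
    exact spread frob P Q V hVAL hDNS hfr hdense nv T (T ∪ {v | p₀ ∣ nv v})
      (hT.union (hnvfin p₀ Fact.out)) (p j) (hVc (p j)) (ι j) (ρ j) (hρc j) (hR j)
      (fun v hv => h1 v (fun h => hv (Or.inl h)) (fun h => hv (Or.inr h))) v hv h2
  obtain ⟨j₁, hj₁⟩ := hinf.nonempty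
  -- the relation gives that the realisations arise
  have hREL : (∀ v ∉ T, val Φ (fun i => P i v) (Q v) = 0) →
      AdArises (fun i => mapHom (padicTo (p j₁) (F j₁) (Ω j₁)) (V (p j₁) i))
        (bc (algebraMap (F j₁) (Ω j₁)) (ρ j₁)) := by
    intro h0
    have hrel := hRLN i₀ Φ hΦ μ frob hfr hdense P Q T hT hdet
      ((algebraMap (F j₁) (Ω j₁)).comp (ι j₁))
      (fun i => mapHom (padicTo (p j₁) (F j₁) (Ω j₁)) (V (p j₁) i))
      (bc (algebraMap (F j₁) (Ω j₁)) (ρ j₁)) (hR j₁) h0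
    exact (ar1 μ frob hdense P' Q' i₀ hdet' ((algebraMap (F j₁) (Ω j₁)).comp (ι j₁)) _ _
      (hR j₁)).1 hrel
  rcases arise_dichotomy.{0, 0} μ frob hdense P' Q' i₀ hdet' with h | h
  · -- all arise
    left
    have hAd : AdArises (fun i => mapHom (padicTo (p j₁) (F j₁) (Ω j₁)) (V (p j₁) i))
        (bc (algebraMap (F j₁) (Ω j₁)) (ρ j₁)) := (h (Ω j₁) _ _ _ (hR j₁)).1
    have h0 : ∀ v ∉ T, val Φ (fun i => P i v) (Q v) = 0 := by
      have : Infinite {j : J // Big (p j) (S j)} := hinf.to_subtype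
      have hres := isResidual frob P Q V hRDP nv hnv hnvfin T hT hVc
        (J := {j : J // Big (p j) (S j)}) (fun j => p j.1)
        (fun x y hxy => Subtype.ext (hp hxy)) (fun j => κ j.1) (fun j => φ j.1)
        (fun j => S j.1) (fun j => hSc j.1) (fun j => hWo j.1) (fun j => hSo j.1)
        (fun j => j.2)
      obtain ⟨Bd, hBd⟩ := (final_all μ frob hdense P' Q' i₀ hdet'
        (J := {j : J // Big (p j) (S j)}) (fun j => p j.1) (fun j => κ j.1) (fun j => φ j.1)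
        (fun j => Wm (p j.1) V) (fun j => S j.1) hres
        ((algebraMap (F j₁) (Ω j₁)).comp (ι j₁)) _ _ (hR j₁)).1.1 hAd
      obtain ⟨j, hj, hMj⟩ := exists_gt p hp hinf (M + c * Bd)
      refine hSPR (hLOC j hj (by omega) ?_)
      have h1 : c * adDegree (Wm (p j) V) (S j) ≤ c * Bd := Nat.mul_le_mul_left _ (hBd ⟨j, hj⟩)
      omega
    refine ⟨h, fun v hv ψ => ?_, fun j hj hj2 => ?_, fun j => ?_⟩
    · exact (ratioAt_iff hVAL hΦ (fun i => P i v) (Q v) (hmon v hv) (hdet v) ψ).2 (h0 v hv)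
    · exact one frob P Q V hVAL hΦ hRDP hONE hdense nv hdet T hT hB (p j) hj2
        (hnvfin (p j) Fact.out) (hVc (p j)) (φ j) (S j) (hSc j) (hWo j) (hSo j) hj.1 h0
    · exact (index_zero_iff frob (p j) P' Q' _ (V (p j)) (ρ j) (hV (p j)) (hρ j) (hR j)).2
        (h (Ω j) _ _ _ (hR j)).1
  · -- none arises
    right
    have hnot : ¬ ∀ v ∉ T, nv v ≤ Y → val Φ (fun i => P i v) (Q v) = 0 := fun h0 =>
      (h (Ω j₁) _ _ _ (hR j₁)).1 (hREL (hSPR h0))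
    have hfi : ∀ j, (cross V ρ j).FiniteIndex := by
      intro j
      have hA := (h (Ω j) _ _ _ (hR j)).1
      have h0 : (kerV (V (p j)) ⊔ adKer (ρ j)).index ≠ 0 := fun h0 =>
        hA ((index_zero_iff frob (p j) P' Q' _ (V (p j)) (ρ j) (hV (p j)) (hρ j) (hR j)).1 h0)
      exact CRB_all Γ r n V hV J p hp F κ red hred ρ hρ hint j (Ω j)
        (SI_of_open _ (hR j).cont (hR j).irr) ⟨h0⟩
    refine ⟨h, ?_, fun j => ⟨(hfi j).index_ne_zero, fun hj hMj => ?_⟩, fun g hg => ?_⟩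
    · by_contra hcon
      push Not at hcon
      refine hnot fun v hv hvY => ?_
      obtain ⟨ψ, hψ⟩ := hcon v hv (hvY.trans hYM)
      exact (ratioAt_iff hVAL hΦ (fun i => P i v) (Q v) (hmon v hv) (hdet v) ψ).1 hψ
    · have hMj' : M < p j := hMj
      have h1 : ¬ kerV (Wm (p j) V) ≤ adKer (S j) := fun hle => by
        have h3 : adDegree (Wm (p j) V) (S j) = 1 := Subgroup.relIndex_eq_one.2 hle
        refine hnot (hLOC j hj hMj' ?_)
        rw [h3, mul_one]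
        omega
      refine ⟨h1, ?_⟩
      have h2 : ∃ g ∈ kerV (fun i => mapHom (PadicInt.toZMod (p := p j)) (V (p j) i)),
          g ∉ adKer (S j) := by
        obtain ⟨g, hg, hg'⟩ := SetLike.not_le_iff_exists.1 h1
        exact ⟨g, hg, hg'⟩
      exact (CRA_all Γ r n V hV J p hp F κ red hred ρ hρ hint m hm3 hmn j (S j) (hS j)
        (by omega) (hSo j) hj.1 hj.2 h2).2
    · exact PRD Γ r n V hV J F ρ hρ g hg

end Pool.Agent.UM
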