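import Mathlib
import Pool.Agent.helper82.UM.Main
import Pool.Agent.helper65.UM.PHI
import Pool.Agent.helper31.UM.UHT
import Pool.Agent.helper30.UM.VAL
import Pool.Agent.helper75.UM.NRM
import Pool.Agent.helper16.UM.FAL
import Pool.Agent.helper97.UM.DNS
import Pool.Agent.helper65.UM.RLN
import Pool.Agent.helper27.UM.ONE
import Pool.Agent.helper18.UM.RDX
import Pool.Agent.helper20.UM.RDP

/-!
# Project UM (MP_2e0e07_nt): all rows together
-/

set_option autoImplicit false

namespace Pool.Agent.UM

theorem MAINU_all : MAINU_stmt := MAINU PHI UHT VAL NRM FAL DNS RLN ONE RDX RDP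

end Pool.Agent.UM
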